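import Pool.Agent.Helper58.PB.StM

/-!
# Project PB, module TRU (truncated and untruncated weights)
-/

set_option autoImplicit false

namespace Pool.Agent.Helper29.PB

open Finset ArithmeticFunction
open Pool.Agent.Helper58.PB
open Pool.Agent.Helper48.BK (ex th Sx Apx rr win AdN Admissible Solv Cl thd)
open Pool.Agent.Helper23.GK (cR)
open Pool.Agent.Helper23.MV (PCh PS ZF ZS mwt OKb ta Sc mm)

private lemma mem_PS_TRU (Q : ℝ) (c : PCh) (h : c ∈ PS Q) : (c.r : ℝ) ≤ Q := by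
  classical
  unfold PS at h
  split_ifs at h with hf
  · exact (Set.Finite.mem_toFinset hf).1 h
  · simp at h

/-! ### the product of the primes up to `Q` -/

private lemma Pi0_ne_TRU (Q : ℕ) : Pi0 Q ≠ 0 := by
  unfold Pi0
  exact Finset.prod_ne_zero_iff.2 fun p hp => (Finset.mem_filter.1 hp).2.ne_zero

private lemma sqf_prod_TRU (S : Finset ℕ) (h : ∀ p ∈ S, p.Prime) : Squarefree (∏ p ∈ S, p) := by
  induction S using Finset.induction_on with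
  | empty => simp
  | insert p S hp ih =>
    rw [Finset.prod_insert hp]
    have hpp := h p (Finset.mem_insert_self p S)
    have hS : ∀ q ∈ S, q.Prime := fun q hq => h q (Finset.mem_insert_of_mem hq)
    refine (Nat.squarefree_mul_iff).2 ⟨?_, hpp.squarefree, ih hS⟩
    refine Nat.Coprime.prod_right fun q hq => ?_
    refine (Nat.coprime_primes hpp (hS q hq)).2 ?_
    rintro rfl
    exact hp hq

private lemma Pi0_sqf_TRU (Q : ℕ) : Squarefree (Pi0 Q) :=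
  sqf_prod_TRU _ fun _ hp => (Finset.mem_filter.1 hp).2

private lemma Pi0_dvd_TRU (Q : ℕ) : Pi0 Q ∣ Nat.factorial Q := by
  unfold Pi0
  refine Finset.prod_primes_dvd _ (fun p hp => (Finset.mem_filter.1 hp).2.prime) fun p hp => ?_
  obtain ⟨h1, h2⟩ := Finset.mem_filter.1 hp
  exact Nat.dvd_factorial h2.pos (by simpa [Nat.lt_succ_iff] using h1)

private lemma sqf_dvd_Pi0_TRU (Q s : ℕ) (h1 : s ≤ Q) (h2 : Squarefree s) : s ∣ Pi0 Q := by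
  have h3 := Nat.prod_primeFactors_of_squarefree h2
  rw [← h3]
  unfold Pi0
  refine Finset.prod_dvd_prod_of_subset _ _ _ fun p hp => ?_
  have hp' := Nat.prime_of_mem_primeFactors hp
  refine Finset.mem_filter.2 ⟨Finset.mem_range.2 ?_, hp'⟩
  have := Nat.le_of_dvd (Nat.pos_of_ne_zero h2.ne_zero) (Nat.dvd_of_mem_primeFactors hp)
  omega

/-! ### the truncated weights -/

private lemma wt_eq_TRU (Q : ℕ) (c : PCh) (n : ℕ) :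
    wt Q c n = (c.r : ℂ) / (Nat.totient c.r : ℂ) * (starRingEnd ℂ) (c.ev n) *
    ((∑ s ∈ ((Pi0 Q).divisors.filter (fun s => Nat.Coprime s c.r)).filter (fun s => s ≤ Q),
      (moebius s : ℝ) / (Nat.totient s : ℝ) * ((cR s n : ℤ) : ℝ) : ℝ) : ℂ) := by
  unfold wt sw
  congr 2
  symm
  refine Finset.sum_subset (fun s hs => ?_) fun s hs hs' => ?_
  · simp only [Finset.mem_filter, Nat.mem_divisors, Finset.mem_Icc] at hs ⊢
    exact ⟨⟨Nat.pos_of_dvd_of_pos hs.1.1.1 (Nat.pos_of_ne_zero (Pi0_ne_TRU Q)), hs.2⟩, hs.1.2⟩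
  · simp only [Finset.mem_filter, Nat.mem_divisors, Finset.mem_Icc] at hs hs'
    have : ¬ Squarefree s := fun h =>
      hs' ⟨⟨⟨sqf_dvd_Pi0_TRU Q s hs.1.2 h, Pi0_ne_TRU Q⟩, hs.2⟩, hs.1.2⟩
    rw [ArithmeticFunction.moebius_eq_zero_of_not_squarefree this]
    simp

/-! ### averages -/

private lemma En_sum_TRU {ι : Type*} (S : Finset ι) (a b c M : ℕ) (d : ℤ) (A : ι → ℂ)
    (F : ι → ℕ → ℕ → ℕ → ℂ) :
    En a b c d M (fun u v w => ∑ s ∈ S, A s * F s u v w) = ∑ s ∈ S, A s * En a b c d M (F s) := by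
  unfold En
  rw [Finset.sum_comm, Finset.mul_sum]
  refine Finset.sum_congr rfl fun s _ => ?_
  rw [← Finset.mul_sum]
  ring

private lemma En_norm_TRU (hL : StLft) (a b c M : ℕ) (d : ℤ) (F : ℕ → ℕ → ℕ → ℂ) (B : ℝ)
    (hM : 1 ≤ M) (hg : Nat.gcd a (Nat.gcd b c) = 1) (hF : ∀ u v w, ‖F u v w‖ ≤ B) :
    ‖En a b c d M F‖ ≤ B := by
  have hc := (hL a b c M 1 d hM le_rfl hg).1
  have hM0 : (0 : ℝ) < M := by exact_mod_cast hM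
  unfold En
  rw [norm_mul]
  have h1 : ‖(1 / (M : ℂ) ^ 2)‖ = 1 / (M : ℝ) ^ 2 := by simp
  rw [h1]
  have h2 : ‖∑ u ∈ Cl a b c d M, F u.1 u.2.1 u.2.2‖ ≤ (M : ℝ) ^ 2 * B := by
    calc ‖∑ u ∈ Cl a b c d M, F u.1 u.2.1 u.2.2‖ ≤ ∑ u ∈ Cl a b c d M, B :=
          norm_sum_le_of_le _ fun u _ => hF _ _ _
      _ = (M : ℝ) ^ 2 * B := by rw [Finset.sum_const, hc]; simp
  calc 1 / (M : ℝ) ^ 2 * ‖∑ u ∈ Cl a b c d M, F u.1 u.2.1 u.2.2‖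
      ≤ 1 / (M : ℝ) ^ 2 * ((M : ℝ) ^ 2 * B) := by gcongr
    _ = B := by field_simp

/-! ### periodicity and size of the factors -/

private lemma ev_per_TRU (c : PCh) (M u u' : ℕ) (hM : c.r ∣ M) (h : u ≡ u' [MOD M]) :
    c.ev u = c.ev u' := by
  unfold PCh.ev
  rw [(ZMod.natCast_eq_natCast_iff u u' c.r).2 (h.of_dvd hM)]

private lemma ev_norm_TRU (c : PCh) (u : ℕ) : ‖(starRingEnd ℂ) (c.ev u)‖ ≤ 1 := by
  rw [RCLike.norm_conj]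
  exact DirichletCharacter.norm_le_one c.χ _

private lemma cR_per_TRU (hC : StCrm) (s M u u' : ℕ) (hs : 1 ≤ s) (hM : s ∣ M)
    (h : u ≡ u' [MOD M]) : cR s u = cR s u' := by
  refine hC.2.1 s u u' hs ?_
  have h1 := (h.of_dvd hM)
  have h2 := (Nat.modEq_iff_dvd.1 h1)
  rw [← dvd_neg]
  simpa using h2

private lemma cR_norm_TRU (hC : StCrm) (s : ℕ) (n : ℤ) (hs : 1 ≤ s) (hq : Squarefree s) :
    ‖((cR s n : ℤ) : ℂ)‖ ≤ Nat.totient s := by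
  rw [Complex.norm_intCast]
  have h1 := hC.2.2 s n hs hq
  have h2 : Nat.totient (Nat.gcd s n.natAbs) ≤ Nat.totient s :=
    Nat.le_of_dvd (Nat.totient_pos.2 hs) (Nat.totient_dvd_of_dvd (Nat.gcd_dvd_left _ _))
  have h3 : (|cR s n| : ℤ) ≤ (Nat.totient s : ℤ) := by rw [h1]; exact_mod_cast h2
  exact_mod_cast h3

/-- splitting of a squarefree number along `R` -/
private lemma split_TRU (s R : ℕ) (hs : Squarefree s) (hR : 1 ≤ R) :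
    s = Nat.gcd s R * (s / Nat.gcd s R) ∧ Nat.Coprime (Nat.gcd s R) (s / Nat.gcd s R) ∧
    Squarefree (Nat.gcd s R) ∧ Squarefree (s / Nat.gcd s R) ∧
    Nat.Coprime R (s / Nat.gcd s R) ∧ 1 ≤ Nat.gcd s R ∧ 1 ≤ s / Nat.gcd s R := by
  have h1 : s = Nat.gcd s R * (s / Nat.gcd s R) := (Nat.mul_div_cancel' (Nat.gcd_dvd_left s R)).symm
  have h2 : Squarefree (Nat.gcd s R * (s / Nat.gcd s R)) := by rw [← h1]; exact hs
  obtain ⟨h3, h4, h5⟩ := Nat.squarefree_mul_iff.1 h2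
  have h6 : 1 ≤ Nat.gcd s R := Nat.gcd_pos_of_pos_right s hR
  refine ⟨h1, h3, h4, h5, ?_, h6, Nat.pos_of_ne_zero h5.ne_zero⟩
  have h7 : Nat.gcd R (s / Nat.gcd s R) ∣ Nat.gcd (Nat.gcd s R) (s / Nat.gcd s R) := by
    refine Nat.dvd_gcd (Nat.dvd_gcd ?_ (Nat.gcd_dvd_left _ _)) (Nat.gcd_dvd_right _ _)
    exact (Nat.gcd_dvd_right _ _).trans (Nat.div_dvd_of_dvd (Nat.gcd_dvd_left s R))
  rw [h3] at h7
  exact Nat.dvd_one.1 h7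

/-! ### one triple -/

/-- the least common multiple of the parts of `s₁, s₂, s₃` prime to `R` -/
private def TT_TRU (R : ℕ) (s : ℕ × ℕ × ℕ) : ℕ :=
  Nat.lcm (s.1 / Nat.gcd s.1 R) (Nat.lcm (s.2.1 / Nat.gcd s.2.1 R) (s.2.2 / Nat.gcd s.2.2 R))

/-- the support condition -/
private def OK_TRU (a b c R : ℕ) (s : ℕ × ℕ × ℕ) : Prop :=
  s.1 / Nat.gcd s.1 R = TT_TRU R s / Nat.gcd (TT_TRU R s) a ∧
  s.2.1 / Nat.gcd s.2.1 R = TT_TRU R s / Nat.gcd (TT_TRU R s) b ∧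
  s.2.2 / Nat.gcd s.2.2 R = TT_TRU R s / Nat.gcd (TT_TRU R s) c

/-- the function of one triple -/
private noncomputable def Ph_TRU (c₁ c₂ c₃ : PCh) (s : ℕ × ℕ × ℕ) (u v w : ℕ) : ℂ :=
  ((starRingEnd ℂ) (c₁.ev u) * ((cR s.1 u : ℤ) : ℂ)) * ((starRingEnd ℂ) (c₂.ev v) * ((cR s.2.1 v : ℤ) : ℂ)) *
    ((starRingEnd ℂ) (c₃.ev w) * ((cR s.2.2 w : ℤ) : ℂ))

open Classical in
private lemma one_TRU (hL : StLft) (hT : StCrt) (hR3 : StRm3) (hC : StCrm)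
    (a b c Q : ℕ) (d : ℤ) (c₁ c₂ c₃ : PCh) (s : ℕ × ℕ × ℕ) (R : ℕ)
    (hR : R = Nat.lcm c₁.r (Nat.lcm c₂.r c₃.r))
    (hg : Nat.gcd a (Nat.gcd b c) = 1) (h₁ : c₁.r ≤ Q) (h₂ : c₂.r ≤ Q) (h₃ : c₃.r ≤ Q)
    (hs₁ : s.1 ∣ Pi0 Q) (hs₂ : s.2.1 ∣ Pi0 Q) (hs₃ : s.2.2 ∣ Pi0 Q) :
    1 / ((Nat.totient s.1 : ℝ) * Nat.totient s.2.1 * Nat.totient s.2.2) *
      ‖En a b c d (Nat.factorial Q) (Ph_TRU c₁ c₂ c₃ s)‖ ≤
    if OK_TRU a b c R s then lct a b c d (TT_TRU R s) else 0 := by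
  have hr₁ : 0 < c₁.r := Nat.pos_of_ne_zero c₁.hr
  have hr₂ : 0 < c₂.r := Nat.pos_of_ne_zero c₂.hr
  have hr₃ : 0 < c₃.r := Nat.pos_of_ne_zero c₃.hr
  have hR0 : 1 ≤ R := by rw [hR]; exact Nat.lcm_pos hr₁ (Nat.lcm_pos hr₂ hr₃)
  have q₁ := (Pi0_sqf_TRU Q).squarefree_of_dvd hs₁
  have q₂ := (Pi0_sqf_TRU Q).squarefree_of_dvd hs₂
  have q₃ := (Pi0_sqf_TRU Q).squarefree_of_dvd hs₃
  obtain ⟨e₁, k₁, gq₁, tq₁, co₁, gp₁, tp₁⟩ := split_TRU s.1 R q₁ hR0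
  obtain ⟨e₂, k₂, gq₂, tq₂, co₂, gp₂, tp₂⟩ := split_TRU s.2.1 R q₂ hR0
  obtain ⟨e₃, k₃, gq₃, tq₃, co₃, gp₃, tp₃⟩ := split_TRU s.2.2 R q₃ hR0
  have gd₁ : Nat.gcd s.1 R ∣ R := Nat.gcd_dvd_right _ _
  have gd₂ : Nat.gcd s.2.1 R ∣ R := Nat.gcd_dvd_right _ _
  have gd₃ : Nat.gcd s.2.2 R ∣ R := Nat.gcd_dvd_right _ _
  have td₁ : s.1 / Nat.gcd s.1 R ∣ Pi0 Q :=
    (Nat.div_dvd_of_dvd (Nat.gcd_dvd_left _ _)).trans hs₁
  have td₂ : s.2.1 / Nat.gcd s.2.1 R ∣ Pi0 Q :=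
    (Nat.div_dvd_of_dvd (Nat.gcd_dvd_left _ _)).trans hs₂
  have td₃ : s.2.2 / Nat.gcd s.2.2 R ∣ Pi0 Q :=
    (Nat.div_dvd_of_dvd (Nat.gcd_dvd_left _ _)).trans hs₃
  have hTT : TT_TRU R s = Nat.lcm (s.1 / Nat.gcd s.1 R)
    (Nat.lcm (s.2.1 / Nat.gcd s.2.1 R) (s.2.2 / Nat.gcd s.2.2 R)) := rfl
  unfold OK_TRU
  set T := TT_TRU R s with hTdef
  clear_value T
  set g₁ := Nat.gcd s.1 R with hg₁
  set g₂ := Nat.gcd s.2.1 R with hg₂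
  set g₃ := Nat.gcd s.2.2 R with hg₃
  set t₁ := s.1 / g₁ with ht₁
  set t₂ := s.2.1 / g₂ with ht₂
  set t₃ := s.2.2 / g₃ with ht₃
  clear_value t₁ t₂ t₃
  clear_value g₁ g₂ g₃
  have hT1 : 1 ≤ T := by rw [hTT]; exact Nat.lcm_pos tp₁ (Nat.lcm_pos tp₂ tp₃)
  have tT₁ : t₁ ∣ T := by rw [hTT]; exact Nat.dvd_lcm_left _ _
  have tT₂ : t₂ ∣ T := by rw [hTT]; exact (Nat.dvd_lcm_left _ _).trans (Nat.dvd_lcm_right _ _)
  have tT₃ : t₃ ∣ T := by rw [hTT]; exact (Nat.dvd_lcm_right _ _).trans (Nat.dvd_lcm_right _ _)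
  have hTP : T ∣ Pi0 Q := by rw [hTT]; exact Nat.lcm_dvd td₁ (Nat.lcm_dvd td₂ td₃)
  have hTco : Nat.Coprime R T := by
    have h1 : T ∣ t₁ * (t₂ * t₃) := by
      rw [hTT]
      exact Nat.lcm_dvd (Dvd.intro _ rfl)
        (Nat.lcm_dvd ((Dvd.intro _ rfl : t₂ ∣ t₂ * t₃).mul_left _)
          ((Dvd.intro_left _ rfl : t₃ ∣ t₂ * t₃).mul_left _))
    exact Nat.Coprime.coprime_dvd_right h1 (co₁.mul_right (co₂.mul_right co₃))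
  have hRQ : R ∣ Nat.factorial Q := by
    rw [hR]
    exact Nat.lcm_dvd (Nat.dvd_factorial hr₁ h₁)
      (Nat.lcm_dvd (Nat.dvd_factorial hr₂ h₂) (Nat.dvd_factorial hr₃ h₃))
  have hRT : R * T ∣ Nat.factorial Q :=
    hTco.mul_dvd_of_dvd_of_dvd hRQ (hTP.trans (Pi0_dvd_TRU Q))
  obtain ⟨M', hM'⟩ := hRT
  have hM'1 : 1 ≤ M' := by
    rcases Nat.eq_zero_or_pos M' with h | h
    · rw [h, mul_zero] at hM'
      exact absurd hM' (Nat.factorial_ne_zero Q)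
    · exact h
  have rR₁ : c₁.r ∣ R := by rw [hR]; exact Nat.dvd_lcm_left _ _
  have rR₂ : c₂.r ∣ R := by rw [hR]; exact (Nat.dvd_lcm_left _ _).trans (Nat.dvd_lcm_right _ _)
  have rR₃ : c₃.r ∣ R := by rw [hR]; exact (Nat.dvd_lcm_right _ _).trans (Nat.dvd_lcm_right _ _)
  set F : ℕ → ℕ → ℕ → ℂ := fun u v w =>
    ((starRingEnd ℂ) (c₁.ev u) * ((cR g₁ u : ℤ) : ℂ)) * ((starRingEnd ℂ) (c₂.ev v) * ((cR g₂ v : ℤ) : ℂ)) *
    ((starRingEnd ℂ) (c₃.ev w) * ((cR g₃ w : ℤ) : ℂ)) with hF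
  set G : ℕ → ℕ → ℕ → ℂ := fun u v w =>
    ((cR t₁ u : ℤ) : ℂ) * ((cR t₂ v : ℤ) : ℂ) * ((cR t₃ w : ℤ) : ℂ) with hG
  have hFG : Ph_TRU c₁ c₂ c₃ s = fun u v w => F u v w * G u v w := by
    funext u v w
    simp only [Ph_TRU, hF, hG]
    rw [e₁, e₂, e₃, hC.1 g₁ t₁ u k₁, hC.1 g₂ t₂ v k₂, hC.1 g₃ t₃ w k₃]
    push_cast
    ring
  have pF : Per3 R F := by
    intro u v w u' v' w' hu hv hw
    simp only [hF]
    rw [ev_per_TRU c₁ R u u' rR₁ hu, ev_per_TRU c₂ R v v' rR₂ hv, ev_per_TRU c₃ R w w' rR₃ hw,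
      cR_per_TRU hC g₁ R u u' gp₁ gd₁ hu, cR_per_TRU hC g₂ R v v' gp₂ gd₂ hv,
      cR_per_TRU hC g₃ R w w' gp₃ gd₃ hw]
  have pG : Per3 T G := by
    intro u v w u' v' w' hu hv hw
    simp only [hG]
    rw [cR_per_TRU hC t₁ T u u' tp₁ tT₁ hu, cR_per_TRU hC t₂ T v v' tp₂ tT₂ hv,
      cR_per_TRU hC t₃ T w w' tp₃ tT₃ hw]
  have pFG : Per3 (R * T) (fun u v w => F u v w * G u v w) := by
    intro u v w u' v' w' hu hv hw
    have h1 := pF u v w u' v' w' (hu.of_dvd (Dvd.intro _ rfl)) (hv.of_dvd (Dvd.intro _ rfl))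
      (hw.of_dvd (Dvd.intro _ rfl))
    have h2 := pG u v w u' v' w' (hu.of_dvd (Dvd.intro_left _ rfl))
      (hv.of_dvd (Dvd.intro_left _ rfl)) (hw.of_dvd (Dvd.intro_left _ rfl))
    simp only [h1, h2]
  have hEn : En a b c d (Nat.factorial Q) (Ph_TRU c₁ c₂ c₃ s) = En a b c d R F * En a b c d T G := by
    rw [hM', hFG, (hL a b c (R * T) M' d (Nat.mul_pos hR0 hT1) hM'1 hg).2 _ pFG]
    exact hT a b c R T d hR0 hT1 hTco F G pF pG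
  have nF : ‖En a b c d R F‖ ≤ (Nat.totient g₁ : ℝ) * Nat.totient g₂ * Nat.totient g₃ := by
    refine En_norm_TRU hL a b c R d F _ hR0 hg fun u v w => ?_
    simp only [hF]
    rw [norm_mul, norm_mul, norm_mul, norm_mul, norm_mul]
    have a₁ := ev_norm_TRU c₁ u
    have a₂ := ev_norm_TRU c₂ v
    have a₃ := ev_norm_TRU c₃ w
    have b₁ := cR_norm_TRU hC g₁ u gp₁ gq₁
    have b₂ := cR_norm_TRU hC g₂ v gp₂ gq₂
    have b₃ := cR_norm_TRU hC g₃ w gp₃ gq₃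
    calc ‖(starRingEnd ℂ) (c₁.ev u)‖ * ‖((cR g₁ u : ℤ) : ℂ)‖ *
          (‖(starRingEnd ℂ) (c₂.ev v)‖ * ‖((cR g₂ v : ℤ) : ℂ)‖) *
          (‖(starRingEnd ℂ) (c₃.ev w)‖ * ‖((cR g₃ w : ℤ) : ℂ)‖)
        ≤ (1 * Nat.totient g₁) * (1 * Nat.totient g₂) * (1 * Nat.totient g₃) := by gcongr
      _ = _ := by ring
  have nG : En a b c d T G = if t₁ = T / Nat.gcd T a ∧ t₂ = T / Nat.gcd T b ∧ t₃ = T / Nat.gcd T c
      then ((cR T d : ℤ) : ℂ) else 0 :=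
    hR3 a b c T t₁ t₂ t₃ d tp₁ tp₂ tp₃ hTT hg
  rw [hEn, norm_mul, nG]
  have pg₁ : (0 : ℝ) < Nat.totient g₁ := by exact_mod_cast Nat.totient_pos.2 gp₁
  have pg₂ : (0 : ℝ) < Nat.totient g₂ := by exact_mod_cast Nat.totient_pos.2 gp₂
  have pg₃ : (0 : ℝ) < Nat.totient g₃ := by exact_mod_cast Nat.totient_pos.2 gp₃
  have pt₁ : (0 : ℝ) < Nat.totient t₁ := by exact_mod_cast Nat.totient_pos.2 tp₁
  have pt₂ : (0 : ℝ) < Nat.totient t₂ := by exact_mod_cast Nat.totient_pos.2 tp₂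
  have pt₃ : (0 : ℝ) < Nat.totient t₃ := by exact_mod_cast Nat.totient_pos.2 tp₃
  have f₁ : (Nat.totient s.1 : ℝ) = Nat.totient g₁ * Nat.totient t₁ := by
    rw [e₁, Nat.totient_mul k₁]; push_cast; ring
  have f₂ : (Nat.totient s.2.1 : ℝ) = Nat.totient g₂ * Nat.totient t₂ := by
    rw [e₂, Nat.totient_mul k₂]; push_cast; ring
  have f₃ : (Nat.totient s.2.2 : ℝ) = Nat.totient g₃ * Nat.totient t₃ := by
    rw [e₃, Nat.totient_mul k₃]; push_cast; ring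
  rw [f₁, f₂, f₃]
  split_ifs with hok
  · have hl : lct a b c d T = |((cR T d : ℤ) : ℝ)| / ((Nat.totient t₁ : ℝ) * Nat.totient t₂ * Nat.totient t₃) := by
      unfold lct
      rw [← hok.1, ← hok.2.1, ← hok.2.2]
    rw [hl, Complex.norm_intCast]
    calc 1 / ((Nat.totient g₁ : ℝ) * Nat.totient t₁ * (Nat.totient g₂ * Nat.totient t₂) *
          (Nat.totient g₃ * Nat.totient t₃)) * (‖En a b c d R F‖ * |((cR T d : ℤ) : ℝ)|)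
        ≤ 1 / ((Nat.totient g₁ : ℝ) * Nat.totient t₁ * (Nat.totient g₂ * Nat.totient t₂) *
          (Nat.totient g₃ * Nat.totient t₃)) *
          (((Nat.totient g₁ : ℝ) * Nat.totient g₂ * Nat.totient g₃) * |((cR T d : ℤ) : ℝ)|) := by
          gcongr
      _ = _ := by field_simp
  · simp

/-! ### summation over the triples -/

open Classical in
private lemma sum_TRU (a b c Q R : ℕ) (d : ℤ) (D : Finset (ℕ × ℕ × ℕ)) (y : ℝ) (hR0 : 1 ≤ R)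
    (hD : ∀ s ∈ D, s.1 ∣ Pi0 Q ∧ s.2.1 ∣ Pi0 Q ∧ s.2.2 ∣ Pi0 Q ∧ (Q < s.1 ∨ Q < s.2.1 ∨ Q < s.2.2))
    (hy : y * R ≤ Q) :
    ∑ s ∈ D, (if OK_TRU a b c R s then lct a b c d (TT_TRU R s) else 0) ≤
      (R : ℝ) ^ 3 * ∑ T ∈ (Pi0 Q).divisors.filter (fun T : ℕ => y < T), lct a b c d T := by
  have hl0 : ∀ T, 0 ≤ lct a b c d T := fun T => by unfold lct; positivity
  rw [← Finset.sum_filter]
  set ι : ℕ × ℕ × ℕ → (ℕ × ℕ × ℕ) × ℕ :=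
    fun s => ((Nat.gcd s.1 R, Nat.gcd s.2.1 R, Nat.gcd s.2.2 R), TT_TRU R s) with hι
  have hinj : Set.InjOn ι (D.filter (OK_TRU a b c R)) := by
    intro s hs s' hs' h
    obtain ⟨h1, h2⟩ := Finset.mem_filter.1 (Finset.mem_coe.1 hs)
    obtain ⟨h1', h2'⟩ := Finset.mem_filter.1 (Finset.mem_coe.1 hs')
    simp only [hι, Prod.mk.injEq] at h
    obtain ⟨⟨i₁, i₂, i₃⟩, i₄⟩ := h
    obtain ⟨o₁, o₂, o₃⟩ := h2
    obtain ⟨o₁', o₂', o₃'⟩ := h2'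
    have e₁ : s.1 = s'.1 := by
      have w1 := Nat.mul_div_cancel' (Nat.gcd_dvd_left s.1 R)
      have w2 := Nat.mul_div_cancel' (Nat.gcd_dvd_left s'.1 R)
      rw [← w1, ← w2, o₁, o₁', i₁, i₄]
    have e₂ : s.2.1 = s'.2.1 := by
      have w1 := Nat.mul_div_cancel' (Nat.gcd_dvd_left s.2.1 R)
      have w2 := Nat.mul_div_cancel' (Nat.gcd_dvd_left s'.2.1 R)
      rw [← w1, ← w2, o₂, o₂', i₂, i₄]
    have e₃ : s.2.2 = s'.2.2 := by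
      have w1 := Nat.mul_div_cancel' (Nat.gcd_dvd_left s.2.2 R)
      have w2 := Nat.mul_div_cancel' (Nat.gcd_dvd_left s'.2.2 R)
      rw [← w1, ← w2, o₃, o₃', i₃, i₄]
    exact Prod.ext e₁ (Prod.ext e₂ e₃)
  have h1 : ∑ s ∈ D.filter (OK_TRU a b c R), lct a b c d (TT_TRU R s) =
      ∑ x ∈ (D.filter (OK_TRU a b c R)).image ι, lct a b c d x.2 := by
    rw [Finset.sum_image hinj]
  rw [h1]
  have hsub : (D.filter (OK_TRU a b c R)).image ι ⊆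
      (R.divisors ×ˢ R.divisors ×ˢ R.divisors) ×ˢ (Pi0 Q).divisors.filter (fun T : ℕ => y < T) := by
    intro x hx
    obtain ⟨s, hs, rfl⟩ := Finset.mem_image.1 hx
    obtain ⟨hs1, hs2⟩ := Finset.mem_filter.1 hs
    obtain ⟨d₁, d₂, d₃, hQ⟩ := hD s hs1
    have hR1 : R ≠ 0 := by omega
    have tt : ∀ m : ℕ, m ∣ Pi0 Q → m / Nat.gcd m R ∣ Pi0 Q := fun m hm =>
      (Nat.div_dvd_of_dvd (Nat.gcd_dvd_left _ _)).trans hm
    have hTP : TT_TRU R s ∣ Pi0 Q := Nat.lcm_dvd (tt _ d₁) (Nat.lcm_dvd (tt _ d₂) (tt _ d₃))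
    have hT0 : 0 < TT_TRU R s := Nat.pos_of_dvd_of_pos hTP (Nat.pos_of_ne_zero (Pi0_ne_TRU Q))
    have tT₁ : s.1 / Nat.gcd s.1 R ≤ TT_TRU R s := Nat.le_of_dvd hT0 (Nat.dvd_lcm_left _ _)
    have tT₂ : s.2.1 / Nat.gcd s.2.1 R ≤ TT_TRU R s :=
      Nat.le_of_dvd hT0 ((Nat.dvd_lcm_left _ _).trans (Nat.dvd_lcm_right _ _))
    have tT₃ : s.2.2 / Nat.gcd s.2.2 R ≤ TT_TRU R s :=
      Nat.le_of_dvd hT0 ((Nat.dvd_lcm_right _ _).trans (Nat.dvd_lcm_right _ _))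
    have key : ∀ m : ℕ, Q < m → m / Nat.gcd m R ≤ TT_TRU R s → y < (TT_TRU R s : ℝ) := by
      intro m hm hmT
      have w1 := Nat.mul_div_cancel' (Nat.gcd_dvd_left m R)
      have w2 : Nat.gcd m R ≤ R := Nat.gcd_le_right m hR0
      have w3 : m ≤ R * TT_TRU R s := by
        calc m = Nat.gcd m R * (m / Nat.gcd m R) := w1.symm
          _ ≤ R * TT_TRU R s := Nat.mul_le_mul w2 hmT
      have w4 : (Q : ℝ) < R * TT_TRU R s := by exact_mod_cast lt_of_lt_of_le hm w3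
      have w5 : y * R < R * TT_TRU R s := lt_of_le_of_lt hy w4
      have hRp : (0 : ℝ) < R := by exact_mod_cast hR0
      rw [mul_comm] at w5
      exact lt_of_mul_lt_mul_left w5 hRp.le
    have hyT : y < (TT_TRU R s : ℝ) := by
      rcases hQ with h | h | h
      · exact key _ h tT₁
      · exact key _ h tT₂
      · exact key _ h tT₃
    simp only [hι, Finset.mem_product, Nat.mem_divisors, Finset.mem_filter]
    exact ⟨⟨⟨Nat.gcd_dvd_right _ _, hR1⟩, ⟨Nat.gcd_dvd_right _ _, hR1⟩, ⟨Nat.gcd_dvd_right _ _, hR1⟩⟩,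
      ⟨hTP, Pi0_ne_TRU Q⟩, hyT⟩
  refine (Finset.sum_le_sum_of_subset_of_nonneg hsub fun x _ _ => hl0 _).trans ?_
  rw [Finset.sum_product]
  simp only [Finset.sum_const, nsmul_eq_mul]
  have hcard : ((R.divisors ×ˢ R.divisors ×ˢ R.divisors).card : ℝ) ≤ (R : ℝ) ^ 3 := by
    rw [Finset.card_product, Finset.card_product]
    have h3 : (R.divisors.card : ℝ) ≤ R := by exact_mod_cast Nat.card_divisors_le_self R
    push_cast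
    calc (R.divisors.card : ℝ) * (R.divisors.card * R.divisors.card) ≤ R * (R * R) := by gcongr
      _ = (R : ℝ) ^ 3 := by ring
  exact mul_le_mul_of_nonneg_right hcard (Finset.sum_nonneg fun T _ => hl0 T)

/-! ### expansion of the products -/

private lemma triple_sum_TRU (S₁ S₂ S₃ : Finset ℕ) (x y z : ℕ → ℂ) :
    (∑ s ∈ S₁, x s) * (∑ s ∈ S₂, y s) * (∑ s ∈ S₃, z s) =
      ∑ s ∈ S₁ ×ˢ S₂ ×ˢ S₃, x s.1 * y s.2.1 * z s.2.2 := by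
  rw [mul_assoc, Finset.sum_mul_sum S₂ S₃, ← Finset.sum_product', Finset.sum_mul_sum,
    ← Finset.sum_product']
  exact Finset.sum_congr rfl fun s _ => by ring

/-- the coefficient of one triple -/
private noncomputable def Co_TRU (c₁ c₂ c₃ : PCh) (s : ℕ × ℕ × ℕ) : ℂ :=
  ((c₁.r : ℂ) / (Nat.totient c₁.r : ℂ) * ((moebius s.1 : ℂ) / (Nat.totient s.1 : ℂ))) *
  ((c₂.r : ℂ) / (Nat.totient c₂.r : ℂ) * ((moebius s.2.1 : ℂ) / (Nat.totient s.2.1 : ℂ))) *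
  ((c₃.r : ℂ) / (Nat.totient c₃.r : ℂ) * ((moebius s.2.2 : ℂ) / (Nat.totient s.2.2 : ℂ)))

private lemma expand_TRU (c₁ c₂ c₃ : PCh) (S₁ S₂ S₃ : Finset ℕ) (u v w : ℕ) :
    ((c₁.r : ℂ) / (Nat.totient c₁.r : ℂ) * (starRingEnd ℂ) (c₁.ev u) *
      ((∑ s ∈ S₁, (moebius s : ℝ) / (Nat.totient s : ℝ) * ((cR s u : ℤ) : ℝ) : ℝ) : ℂ)) *
    ((c₂.r : ℂ) / (Nat.totient c₂.r : ℂ) * (starRingEnd ℂ) (c₂.ev v) *
      ((∑ s ∈ S₂, (moebius s : ℝ) / (Nat.totient s : ℝ) * ((cR s v : ℤ) : ℝ) : ℝ) : ℂ)) *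
    ((c₃.r : ℂ) / (Nat.totient c₃.r : ℂ) * (starRingEnd ℂ) (c₃.ev w) *
      ((∑ s ∈ S₃, (moebius s : ℝ) / (Nat.totient s : ℝ) * ((cR s w : ℤ) : ℝ) : ℝ) : ℂ)) =
    ∑ s ∈ S₁ ×ˢ S₂ ×ˢ S₃, Co_TRU c₁ c₂ c₃ s * Ph_TRU c₁ c₂ c₃ s u v w := by
  push_cast
  have h : ∀ A B C X Y Z : ℂ, (A * X) * (B * Y) * (C * Z) = (A * B * C) * (X * Y * Z) := by
    intros; ring
  rw [h, triple_sum_TRU, Finset.mul_sum]
  refine Finset.sum_congr rfl fun s _ => ?_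
  simp only [Co_TRU, Ph_TRU]
  ring

private lemma K_le_TRU (r : ℕ) (P : ℝ) (hr : 0 < r) (h : (r : ℝ) ≤ P) (s : ℕ) :
    ‖(r : ℂ) / (Nat.totient r : ℂ) * ((moebius s : ℂ) / (Nat.totient s : ℂ))‖ ≤
      P * (1 / (Nat.totient s : ℝ)) := by
  rw [norm_mul, norm_div, norm_div, Complex.norm_natCast, Complex.norm_natCast,
    Complex.norm_natCast, Complex.norm_intCast]
  have h1 : (1 : ℝ) ≤ Nat.totient r := by exact_mod_cast Nat.totient_pos.2 hr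
  have h2 : |((moebius s : ℤ) : ℝ)| ≤ 1 := by exact_mod_cast ArithmeticFunction.abs_moebius_le_one
  have h3 : (r : ℝ) / Nat.totient r ≤ P := (div_le_self (by positivity) h1).trans h
  have h4 : (0 : ℝ) ≤ P := le_trans (by positivity) h
  have h5 : |((moebius s : ℤ) : ℝ)| / (Nat.totient s : ℝ) ≤ 1 / (Nat.totient s : ℝ) := by gcongr
  exact mul_le_mul h3 h5 (by positivity) h4

theorem hTru : StLft → StCrt → StRm3 → StCrm → StTai → StUnt → StTru := by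
  classical
  intro hL hT hR3 hC hA hU
  obtain ⟨C, hC1, hTai⟩ := hA
  refine ⟨C, hC1, ?_⟩
  intro P a b c Q d c₁ c₂ c₃ hP hPQ ha hb hc hAd m₁ m₂ m₃
  have hg : Nat.gcd a (Nat.gcd b c) = 1 := hAd.2.1
  have r₁ := mem_PS_TRU P c₁ m₁
  have r₂ := mem_PS_TRU P c₂ m₂
  have r₃ := mem_PS_TRU P c₃ m₃
  have p₁ : 0 < c₁.r := Nat.pos_of_ne_zero c₁.hr
  have p₂ : 0 < c₂.r := Nat.pos_of_ne_zero c₂.hr
  have p₃ : 0 < c₃.r := Nat.pos_of_ne_zero c₃.hr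
  have q₁ : c₁.r ≤ Q := by exact_mod_cast r₁.trans hPQ
  have q₂ : c₂.r ≤ Q := by exact_mod_cast r₂.trans hPQ
  have q₃ : c₃.r ≤ Q := by exact_mod_cast r₃.trans hPQ
  have hP0 : 0 < P := by linarith
  have hQ0 : (0 : ℝ) < Q := by linarith
  set R := Nat.lcm c₁.r (Nat.lcm c₂.r c₃.r) with hR
  have hR0 : 1 ≤ R := Nat.lcm_pos p₁ (Nat.lcm_pos p₂ p₃)
  have hRP : (R : ℝ) ≤ P ^ 3 := by
    have h1 : R ≤ c₁.r * (c₂.r * c₃.r) := by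
      refine Nat.le_of_dvd (by positivity) ?_
      exact Nat.lcm_dvd (Dvd.intro _ rfl)
        (Nat.lcm_dvd ((Dvd.intro _ rfl : c₂.r ∣ c₂.r * c₃.r).mul_left _)
          ((Dvd.intro_left _ rfl : c₃.r ∣ c₂.r * c₃.r).mul_left _))
    have h2 : (R : ℝ) ≤ c₁.r * (c₂.r * c₃.r) := by exact_mod_cast h1
    calc (R : ℝ) ≤ c₁.r * (c₂.r * c₃.r) := h2
      _ ≤ P * (P * P) := by gcongr
      _ = P ^ 3 := by ring
  clear_value R
  set D₁ := (Pi0 Q).divisors.filter (fun s => Nat.Coprime s c₁.r) with hD₁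
  set D₂ := (Pi0 Q).divisors.filter (fun s => Nat.Coprime s c₂.r) with hD₂
  set D₃ := (Pi0 Q).divisors.filter (fun s => Nat.Coprime s c₃.r) with hD₃
  set E₁ := D₁.filter (fun s => s ≤ Q) with hE₁
  set E₂ := D₂.filter (fun s => s ≤ Q) with hE₂
  set E₃ := D₃.filter (fun s => s ≤ Q) with hE₃
  have hw : (fun u v w => wt Q c₁ u * wt Q c₂ v * wt Q c₃ w) = fun u v w =>
      ∑ s ∈ E₁ ×ˢ E₂ ×ˢ E₃, Co_TRU c₁ c₂ c₃ s * Ph_TRU c₁ c₂ c₃ s u v w := by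
    funext u v w
    rw [wt_eq_TRU Q c₁ u, wt_eq_TRU Q c₂ v, wt_eq_TRU Q c₃ w]
    exact expand_TRU c₁ c₂ c₃ E₁ E₂ E₃ u v w
  have hi : (fun u v w => wi Q c₁ u * wi Q c₂ v * wi Q c₃ w) = fun u v w =>
      ∑ s ∈ D₁ ×ˢ D₂ ×ˢ D₃, Co_TRU c₁ c₂ c₃ s * Ph_TRU c₁ c₂ c₃ s u v w := by
    funext u v w
    rw [hU P Q u c₁ hPQ m₁, hU P Q v c₂ hPQ m₂, hU P Q w c₃ hPQ m₃]
    exact expand_TRU c₁ c₂ c₃ D₁ D₂ D₃ u v w
  have hsub : E₁ ×ˢ E₂ ×ˢ E₃ ⊆ D₁ ×ˢ D₂ ×ˢ D₃ :=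
    Finset.product_subset_product (Finset.filter_subset _ _)
      (Finset.product_subset_product (Finset.filter_subset _ _) (Finset.filter_subset _ _))
  rw [hw, hi, En_sum_TRU, En_sum_TRU, ← Finset.sum_sdiff hsub]
  set Z := (D₁ ×ˢ D₂ ×ˢ D₃) \ (E₁ ×ˢ E₂ ×ˢ E₃) with hZ
  have hZ' : ∀ s ∈ Z, s.1 ∣ Pi0 Q ∧ s.2.1 ∣ Pi0 Q ∧ s.2.2 ∣ Pi0 Q ∧
      (Q < s.1 ∨ Q < s.2.1 ∨ Q < s.2.2) := by
    intro s hs
    simp only [hZ, hE₁, hE₂, hE₃, hD₁, hD₂, hD₃, Finset.mem_sdiff, Finset.mem_product,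
      Finset.mem_filter, Nat.mem_divisors] at hs
    obtain ⟨⟨⟨⟨h1, _⟩, h2⟩, ⟨⟨h3, _⟩, h4⟩, ⟨⟨h5, _⟩, h6⟩⟩, h7⟩ := hs
    refine ⟨h1, h3, h5, ?_⟩
    by_contra hcon
    push Not at hcon
    exact h7 ⟨⟨⟨⟨h1, Pi0_ne_TRU Q⟩, h2⟩, hcon.1⟩, ⟨⟨⟨h3, Pi0_ne_TRU Q⟩, h4⟩, hcon.2.1⟩,
      ⟨⟨h5, Pi0_ne_TRU Q⟩, h6⟩, hcon.2.2⟩
  have hnorm : ‖∑ s ∈ E₁ ×ˢ E₂ ×ˢ E₃, Co_TRU c₁ c₂ c₃ s * En a b c d (Nat.factorial Q) (Ph_TRU c₁ c₂ c₃ s) -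
      (∑ s ∈ Z, Co_TRU c₁ c₂ c₃ s * En a b c d (Nat.factorial Q) (Ph_TRU c₁ c₂ c₃ s) +
      ∑ s ∈ E₁ ×ˢ E₂ ×ˢ E₃, Co_TRU c₁ c₂ c₃ s * En a b c d (Nat.factorial Q) (Ph_TRU c₁ c₂ c₃ s))‖ ≤
      P ^ 3 * ∑ s ∈ Z, (if OK_TRU a b c R s then lct a b c d (TT_TRU R s) else 0) := by
    have h1 : ∀ x y : ℂ, x - (y + x) = -y := fun x y => by ring
    rw [h1, norm_neg, Finset.mul_sum]
    refine norm_sum_le_of_le _ fun s hs => ?_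
    obtain ⟨z₁, z₂, z₃, _⟩ := hZ' s hs
    have h2 := one_TRU hL hT hR3 hC a b c Q d c₁ c₂ c₃ s R hR hg q₁ q₂ q₃ z₁ z₂ z₃
    rw [norm_mul]
    have h3 : ‖Co_TRU c₁ c₂ c₃ s‖ ≤ P ^ 3 * (1 / ((Nat.totient s.1 : ℝ) * Nat.totient s.2.1 * Nat.totient s.2.2)) := by
      unfold Co_TRU
      rw [norm_mul, norm_mul]
      have k₁ := K_le_TRU c₁.r P p₁ r₁ s.1
      have k₂ := K_le_TRU c₂.r P p₂ r₂ s.2.1
      have k₃ := K_le_TRU c₃.r P p₃ r₃ s.2.2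
      refine (mul_le_mul (mul_le_mul k₁ k₂ (norm_nonneg _) (by positivity)) k₃ (norm_nonneg _)
        (by positivity)).trans (le_of_eq ?_)
      rw [one_div, one_div, one_div, one_div, mul_inv, mul_inv]
      ring
    calc ‖Co_TRU c₁ c₂ c₃ s‖ * ‖En a b c d (Nat.factorial Q) (Ph_TRU c₁ c₂ c₃ s)‖
        ≤ (P ^ 3 * (1 / ((Nat.totient s.1 : ℝ) * Nat.totient s.2.1 * Nat.totient s.2.2))) *
          ‖En a b c d (Nat.factorial Q) (Ph_TRU c₁ c₂ c₃ s)‖ := by gcongr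
      _ = P ^ 3 * (1 / ((Nat.totient s.1 : ℝ) * Nat.totient s.2.1 * Nat.totient s.2.2) *
          ‖En a b c d (Nat.factorial Q) (Ph_TRU c₁ c₂ c₃ s)‖) := by ring
      _ ≤ _ := by gcongr
  refine hnorm.trans ?_
  set y : ℝ := (Q : ℝ) / P ^ 3 with hy
  have hy0 : 0 < y := by positivity
  have hyR : y * R ≤ Q := by
    calc y * R ≤ y * P ^ 3 := by gcongr
      _ = Q := by rw [hy]; field_simp
  have h4 := sum_TRU a b c Q R d Z y hR0 hZ' hyR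
  have h5 := hTai a b c Q d y ha hb hc hAd hy0
  have h6 : y ^ (-(1 / 2) : ℝ) ≤ (Q : ℝ) ^ (-(1 / 2) : ℝ) * P ^ 2 := by
    rw [hy, Real.div_rpow hQ0.le (by positivity), Real.rpow_neg (by positivity : (0:ℝ) ≤ P ^ 3),
      div_inv_eq_mul]
    have h7 : ((P ^ 3 : ℝ)) ^ (1 / 2 : ℝ) ≤ P ^ 2 := by
      have h8 : (P ^ 3 : ℝ) ≤ (P ^ 2) ^ 2 := by
        rw [← pow_mul]
        exact pow_le_pow_right₀ hP (by norm_num)
      rw [← Real.sqrt_eq_rpow]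
      exact Real.sqrt_le_iff.2 ⟨by positivity, h8⟩
    gcongr
  have hτ : 0 ≤ ((a * b * c).divisors.card : ℝ) ^ 2 := by positivity
  have hR3' : (R : ℝ) ^ 3 ≤ P ^ 9 := by
    calc (R : ℝ) ^ 3 ≤ (P ^ 3) ^ 3 := by gcongr
      _ = P ^ 9 := by ring
  have hC0 : 0 ≤ C := by linarith
  calc P ^ 3 * ∑ s ∈ Z, (if OK_TRU a b c R s then lct a b c d (TT_TRU R s) else 0)
      ≤ P ^ 3 * ((R : ℝ) ^ 3 * ∑ T ∈ (Pi0 Q).divisors.filter (fun T : ℕ => y < T), lct a b c d T) := by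
        gcongr
    _ ≤ P ^ 3 * ((R : ℝ) ^ 3 * (C * y ^ (-(1 / 2) : ℝ) * ((a * b * c).divisors.card : ℝ) ^ 2)) := by
        gcongr
    _ ≤ P ^ 3 * (P ^ 9 * (C * ((Q : ℝ) ^ (-(1 / 2) : ℝ) * P ^ 2) *
          ((a * b * c).divisors.card : ℝ) ^ 2)) := by
        gcongr
    _ = C * P ^ 14 * (Q : ℝ) ^ (-(1 / 2) : ℝ) * ((a * b * c).divisors.card : ℝ) ^ 2 := by ring

end Pool.Agent.Helper29.PB
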